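import Pool.Agent.H663R2.HyperPoly

/-!
# Hypergraphic matroid matching reduces to linear (graphic) matroid matching with an explicit
representation

The idea: give every hyperedge `e` a private edge `e'` (a component of its own).  The graph has the
lines `{e', uv}` for `u, v ∈ e` (every pair `uv` of vertices being an edge, with as many parallel
copies as needed) and a line `{e', f'}` for every block `{e, f}` of the given partition.
-/

namespace Pool.Agent.Results.MP_0c5eb8_lc.LinearReduction

open Pool.Agent.NPC Pool.Agent.NPC.HM663 Pool.Agent.H663R2.HM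

/-- The matroid matching number of a hypergraphic instance: the largest number of blocks whose
union is independent. -/
noncomputable def nu (I : Inst) : ℕ := sSup {m | HasMatching I m}

/-- The matroid matching number of an explicitly represented linear matroid. -/
noncomputable def linNu (L : LInst) : ℕ := sSup {m | HasLinMatching L m}

/-- A graph instance: all hyperedges have exactly two vertices. -/
def IsGraph (G : Inst) : Prop := ∀ p ∈ G.2, p.1.toFinset.card = 2 ∧ p.2.toFinset.card = 2

lemma hasMatching_zero (I : Inst) : HasMatching I 0 := by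
  refine ⟨∅, rfl, ?_⟩
  intro X hX hne
  rw [Finset.empty_product, Finset.subset_empty] at hX
  exact absurd hX hne.ne_empty

lemma hasMatching_le {I : Inst} {m : ℕ} (h : HasMatching I m) : m ≤ I.2.length := by
  obtain ⟨J, hJ, _⟩ := h
  have := Finset.card_le_univ J
  rw [Fintype.card_fin] at this
  omega

lemma sSup_shift {S T : Set ℕ} {k n : ℕ} (h0 : 0 ∈ S) (hS : ∀ m ∈ S, m ≤ n)
    (h : ∀ m, k + m ∈ T ↔ m ∈ S) : sSup T = k + sSup S := by
  have hSb : BddAbove S := ⟨n, fun m hm => hS m hm⟩
  have hTb : BddAbove T := by
    refine ⟨k + n, fun t ht => ?_⟩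
    by_cases hk : t < k
    · omega
    · have h1 : k + (t - k) ∈ T := by
        rwa [Nat.add_sub_cancel' (not_lt.mp hk)]
      have := hS _ ((h _).mp h1)
      omega
  have hT0 : k + 0 ∈ T := (h 0).mpr h0
  have hT : sSup T ∈ T := Nat.sSup_mem ⟨_, hT0⟩ hTb
  have hSm : sSup S ∈ S := Nat.sSup_mem ⟨_, h0⟩ hSb
  have h1 : k ≤ sSup T := by
    have := le_csSup hTb hT0
    omega
  have h2 : sSup T - k ∈ S := by
    rw [← h, Nat.add_sub_cancel' h1]
    exact hT
  have h3 := le_csSup hSb h2
  have h4 := le_csSup hTb ((h _).mpr hSm)
  omega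

lemma nu_red (I : Inst) : nu (red I) = I.2.length + nu I :=
  sSup_shift (hasMatching_zero I) (fun _ hm => hasMatching_le hm) (fun m => red_iff I m)

lemma linNu_red {I : Inst} (hI : Valid I) : linNu (toLin (red I)) = I.2.length + nu I :=
  sSup_shift (hasMatching_zero I) (fun _ hm => hasMatching_le hm) (fun m => lin_red_iff hI m)

lemma red_valid {I : Inst} (hI : Valid I) : Valid (red I) := by
  intro p hp
  have h := red_isGr2 hI p hp
  obtain ⟨u, v, h1, _, hu, hv⟩ := h false
  obtain ⟨u', v', h1', _, hu', hv'⟩ := h true
  simp only [side, Bool.false_eq_true, if_false] at h1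
  simp only [side, if_true] at h1'
  rw [h1, h1']
  refine ⟨⟨by simp, ?_⟩, ⟨by simp, ?_⟩⟩
  · intro w hw
    simp only [List.mem_cons, List.not_mem_nil, or_false] at hw
    rcases hw with rfl | rfl <;> assumption
  · intro w hw
    simp only [List.mem_cons, List.not_mem_nil, or_false] at hw
    rcases hw with rfl | rfl <;> assumption

/-- **Hypergraphic matroid matching reduces to matroid matching in explicitly represented linear
(in fact graphic) matroids.** -/
theorem result : ∃ (graph : Inst → Inst) (mat : Inst → LInst),
    (∃ F : List Bool → List Bool, PolyTime F ∧ ∀ I, F (bits I) = bits (graph I)) ∧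
    (∃ F : List Bool → List Bool, PolyTime F ∧ ∀ I, F (bits I) = bits (mat I)) ∧
    (∀ I, Valid I → Valid (graph I) ∧ IsGraph (graph I) ∧
      nu (graph I) = I.2.length + nu I ∧ linNu (mat I) = I.2.length + nu I) ∧
    (∀ A : List Bool → List Bool, PolyTime A → (∀ L : LInst, A (bits L) = bits (linNu L)) →
      ∃ B : List Bool → List Bool, PolyTime B ∧ ∀ I, Valid I → B (bits I) = bits (nu I)) ∧
    (∀ A : List Bool → List Bool, PolyTime A →
      (∀ G : Inst, Valid G → IsGraph G → A (bits G) = bits (nu G)) →
      ∃ B : List Bool → List Bool, PolyTime B ∧ ∀ I, Valid I → B (bits I) = bits (nu I)) := by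
  refine ⟨red, fun I => toLin (red I), exists_polyTime red_poly, exists_polyTime lred_poly,
    fun I hI => ⟨red_valid hI, fun p hp => ⟨?_, ?_⟩, nu_red I, linNu_red hI⟩, ?_, ?_⟩
  · exact red_isGr I p hp false
  · exact red_isGr I p hp true
  · intro A hA hL
    exact transfer lred_poly hA fun I hI => by rw [hL, linNu_red hI]
  · intro A hA hG
    exact transfer red_poly hA fun I hI => by
      rw [hG _ (red_valid hI) fun p hp => ⟨red_isGr I p hp false, red_isGr I p hp true⟩, nu_red]

end Pool.Agent.Results.MP_0c5eb8_lc.LinearReduction
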